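import Mathlib
import Pool.Agent.helper61.DL.Defs4

set_option autoImplicit false

/-!
# Module T1b: the triangulation with all small heights
-/

namespace Pool.Agent.helper20.DL

open Finset Filter Topology Pool.Agent.helper61.DL Pool.Agent.helper14.NS
open Pool.Agent.helper11.NSR (dt)

variable {n : ℕ} {ι : Type} [Fintype ι] [DecidableEq ι] {V : ι → Fin n →₀ ℕ} {om : ι → ℤ} {ε : ℚ}

lemma castdot (k : Fin n → ℚ) (V : ι → Fin n →₀ ℕ) (i : ι) :
    (fun j => ((k j : ℚ) : ℝ)) ⬝ᵥ rV V i = ((dt k (qv V i) : ℚ) : ℝ) := by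
  rw [dt_qv]
  push_cast
  rfl

lemma dt_sum {κ : Type} (s : Finset κ) (a : κ → ℚ) (d : κ → Fin n → ℚ) (x : Fin n → ℚ) :
    dt (fun j => ∑ v ∈ s, a v * d v j) x = ∑ v ∈ s, a v * dt (d v) x := by
  unfold dt
  simp_rw [Finset.sum_mul, Finset.mul_sum]
  rw [Finset.sum_comm]
  exact Finset.sum_congr rfl fun v _ => Finset.sum_congr rfl fun j _ => by ring

/-- the dual basis -/
lemma exists_dual (hT : Tri V om ε) (Δ : Finset ι) (hΔ : Δ ∈ maxS V om ε) :
    ∃ d : ι → Fin n → ℚ, (∀ u ∈ Δ, ∀ v ∈ Δ, dt (d u) (qv V v) = if u = v then 1 else 0) ∧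
      ∀ x : Fin n → ℚ, x = ∑ v ∈ Δ, dt (d v) x • qv V v := by
  obtain ⟨c, hc1, hc2, hc3⟩ := Pool.Agent.helper11.NSR.exists_coord (qv V) Δ (maxS_card Δ hΔ)
    (maxS_li hT Δ hΔ)
  have key : ∀ (v : ι) (x : Fin n → ℚ), dt (fun j => c v (Pi.single j 1)) x = c v x := by
    intro v x
    unfold dt
    have h1 : x = ∑ j, x j • (Pi.single j 1 : Fin n → ℚ) := by
      ext i
      rw [Finset.sum_apply]
      simp [Pi.single_apply]
    conv_rhs => rw [h1]
    rw [map_sum]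
    refine Finset.sum_congr rfl fun j _ => ?_
    rw [map_smul, smul_eq_mul, mul_comm]
  refine ⟨fun v j => c v (Pi.single j 1), ?_, ?_⟩
  · intro u hu v hv
    rw [key]
    exact hc2 u hu v hv
  · intro x
    have h1 : ∑ v ∈ Δ, dt (fun j => c v (Pi.single j 1)) x • qv V v =
        ∑ v, dt (fun j => c v (Pi.single j 1)) x • qv V v := by
      refine Finset.sum_subset (Finset.subset_univ _) ?_
      intro v _ hv
      rw [key, hc1 v hv]
      simp
    rw [h1]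
    conv_lhs => rw [hc3 x]
    exact Finset.sum_congr rfl fun v _ => by rw [key]

omit [Fintype ι] [DecidableEq ι] in
lemma dt_of_values {Δ : Finset ι} {d : ι → Fin n → ℚ}
    (hd : ∀ x : Fin n → ℚ, x = ∑ v ∈ Δ, dt (d v) x • qv V v) (k : Fin n → ℚ) (a : ι → ℚ)
    (hk : ∀ v ∈ Δ, dt k (qv V v) = a v) (x : Fin n → ℚ) :
    dt k x = ∑ v ∈ Δ, a v * dt (d v) x := by
  have h1 : dt k x = dt k (∑ v ∈ Δ, dt (d v) x • qv V v) := by rw [← hd x]
  rw [h1]
  have h2 : dt k (∑ v ∈ Δ, dt (d v) x • qv V v) = ∑ v ∈ Δ, dt (d v) x * dt k (qv V v) := by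
    unfold dt
    simp_rw [Finset.sum_apply, Pi.smul_apply, smul_eq_mul, Finset.mul_sum]
    rw [Finset.sum_comm]
    exact Finset.sum_congr rfl fun v _ => Finset.sum_congr rfl fun j _ => by ring
  rw [h2]
  exact Finset.sum_congr rfl fun v hv => by rw [hk v hv, mul_comm]

/-- T1b from T1a -/
theorem tri_poly_of (hT : Tri V om ε)
    (hcov : ∀ x : Fin n → ℝ, (∀ j, 0 ≤ x j) → ∃ Δ ∈ maxS V om ε, ∃ c : ι → ℝ, (∀ v, 0 ≤ c v) ∧
      (∀ v, v ∉ Δ → c v = 0) ∧ ∀ j, x j = ∑ v, c v * (V v j : ℝ)) :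
    ∃ (dd : Finset ι → ι → Fin n → ℚ) (ε₁ : ℚ), 0 < ε₁ ∧
      (∀ η : ℚ, 0 < η → η ≤ ε₁ → Poly (rV V) (fun i => ((1 - η * om i : ℚ) : ℝ)) (maxS V om ε)
        (fun Δ j => ((∑ v ∈ Δ, (1 - η * om v) * dd Δ v j : ℚ) : ℝ))
        (fun Δ v j => (dd Δ v j : ℝ))) ∧
      ∀ Δ ∈ maxS V om ε, ∀ i, 1 ≤ (fun j => ((∑ v ∈ Δ, dd Δ v j : ℚ) : ℝ)) ⬝ᵥ rV V i := by
  classical
  have hex : ∀ Δ : Finset ι, ∃ d : ι → Fin n → ℚ, Δ ∈ maxS V om ε →
      (∀ u ∈ Δ, ∀ v ∈ Δ, dt (d u) (qv V v) = if u = v then 1 else 0) ∧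
      ∀ x : Fin n → ℚ, x = ∑ v ∈ Δ, dt (d v) x • qv V v := by
    intro Δ
    by_cases hΔ : Δ ∈ maxS V om ε
    · obtain ⟨d, h1, h2⟩ := exists_dual hT Δ hΔ
      exact ⟨d, fun _ => ⟨h1, h2⟩⟩
    · exact ⟨fun _ _ => 0, fun h => absurd h hΔ⟩
  choose dd hdd using hex
  -- the values for the heights 1
  have h0 : ∀ Δ ∈ maxS V om ε, ∀ i, 1 ≤ ∑ v ∈ Δ, dt (dd Δ v) (qv V i) := by
    intro Δ hΔ i
    obtain ⟨hc, k, h1, h2⟩ := (mem_maxS Δ).1 hΔ
    obtain ⟨k', h3, h4⟩ := hT.compat k Δ hc h1 h2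
    have h5 := dt_of_values (hdd Δ hΔ).2 k' (fun _ => 1) h4 (qv V i)
    have h6 := h3 i
    rw [h5] at h6
    simpa using h6
  have heps : ∀ Δ ∈ maxS V om ε, ∀ i, 1 - ε * om i ≤ ∑ v ∈ Δ, (1 - ε * om v) *
      dt (dd Δ v) (qv V i) ∧ (i ∈ Δ ↔ ∑ v ∈ Δ, (1 - ε * om v) *
      dt (dd Δ v) (qv V i) = 1 - ε * om i) := by
    intro Δ hΔ i
    obtain ⟨hc, k, h1, h2⟩ := (mem_maxS Δ).1 hΔ
    have h5 := dt_of_values (hdd Δ hΔ).2 k (fun v => 1 - ε * om v) (fun v hv => (h2 v).1 hv)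
      (qv V i)
    rw [← h5]
    exact ⟨h1 i, h2 i⟩
  -- the values for the height `η`
  have hval : ∀ (η : ℚ) (Δ : Finset ι) (i : ι),
      (fun j => ((∑ v ∈ Δ, (1 - η * om v) * dd Δ v j : ℚ) : ℝ)) ⬝ᵥ rV V i =
        ((∑ v ∈ Δ, (1 - η * om v) * dt (dd Δ v) (qv V i) : ℚ) : ℝ) := by
    intro η Δ i
    rw [castdot, dt_sum]
  have hlin : ∀ (η : ℚ) (Δ : Finset ι) (i : ι), ε * ∑ v ∈ Δ, (1 - η * om v) *
      dt (dd Δ v) (qv V i) = (ε - η) * ∑ v ∈ Δ, dt (dd Δ v) (qv V i) +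
        η * ∑ v ∈ Δ, (1 - ε * om v) * dt (dd Δ v) (qv V i) := by
    intro η Δ i
    rw [Finset.mul_sum, Finset.mul_sum, Finset.mul_sum, ← Finset.sum_add_distrib]
    exact Finset.sum_congr rfl fun v _ => by ring
  have hε := hT.eps_pos
  set M : ℚ := ∑ i, |(om i : ℚ)| with hM
  have hM0 : 0 ≤ M := Finset.sum_nonneg fun i _ => abs_nonneg _
  have hMi : ∀ i, (om i : ℚ) ≤ M := fun i =>
    (le_abs_self _).trans (Finset.single_le_sum (f := fun i => |(om i : ℚ)|)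
      (fun i _ => abs_nonneg _) (Finset.mem_univ i))
  refine ⟨dd, min ε (1 / (M + 1)), lt_min hε (by positivity), ?_, ?_⟩
  · intro η hη hη'
    have hη1 : η ≤ ε := hη'.trans (min_le_left _ _)
    have hη2 : η * (M + 1) ≤ 1 := by
      have := hη'.trans (min_le_right _ _)
      rwa [le_div_iff₀ (by positivity)] at this
    have hkk : ∀ Δ ∈ maxS V om ε, ∀ i, 1 - η * om i ≤ ∑ v ∈ Δ, (1 - η * om v) *
        dt (dd Δ v) (qv V i) ∧ (∑ v ∈ Δ, (1 - η * om v) *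
        dt (dd Δ v) (qv V i) = 1 - η * om i → i ∈ Δ) := by
      intro Δ hΔ i
      have e1 := h0 Δ hΔ i
      obtain ⟨e2, e3⟩ := heps Δ hΔ i
      have e4 := hlin η Δ i
      have e5 : 0 ≤ (ε - η) * (∑ v ∈ Δ, dt (dd Δ v) (qv V i) - 1) :=
        mul_nonneg (by linarith) (by linarith)
      constructor
      · have e6 : 0 ≤ η * (∑ v ∈ Δ, (1 - ε * om v) * dt (dd Δ v) (qv V i) - (1 - ε * om i)) :=
          mul_nonneg hη.le (by linarith)
        have e7 : ε * (1 - η * om i) ≤ ε * ∑ v ∈ Δ, (1 - η * om v) *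
            dt (dd Δ v) (qv V i) := by
          rw [e4]
          linarith
        exact le_of_mul_le_mul_left e7 hε
      · intro e6
        rw [e3]
        have e7 : η * (∑ v ∈ Δ, (1 - ε * om v) * dt (dd Δ v) (qv V i) - (1 - ε * om i)) ≤ 0 := by
          rw [e6] at e4
          linarith
        by_contra e8
        have e9 : 0 < ∑ v ∈ Δ, (1 - ε * om v) * dt (dd Δ v) (qv V i) - (1 - ε * om i) :=
          sub_pos.2 (lt_of_le_of_ne e2 (Ne.symm e8))
        have := mul_pos hη e9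
        linarith
    have hkkΔ : ∀ Δ ∈ maxS V om ε, ∀ i ∈ Δ, ∑ v ∈ Δ, (1 - η * om v) *
        dt (dd Δ v) (qv V i) = 1 - η * om i := by
      intro Δ hΔ i hi
      rw [Finset.sum_eq_single i]
      · rw [(hdd Δ hΔ).1 i hi i hi, if_pos rfl, mul_one]
      · intro v hv hvi
        rw [(hdd Δ hΔ).1 v hv i hi, if_neg hvi, mul_zero]
      · intro h
        exact absurd hi h
    have hconv : ∀ j : Fin n, ∃ i, 0 < rV V i j ∧ ∀ j', j' ≠ j → rV V i j' = 0 := by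
      intro j
      obtain ⟨i, h1, h2⟩ := hT.conv j
      refine ⟨i, Nat.cast_pos.2 h1, fun j' hj' => ?_⟩
      unfold rV
      rw [h2 j' hj', Nat.cast_zero]
    refine ⟨maxS_card, ?_, ?_, ?_, ?_, ?_, hconv, ?_⟩
    · intro Δ hΔ i
      change ((1 - η * om i : ℚ) : ℝ) ≤ _
      rw [hval]
      exact_mod_cast (hkk Δ hΔ i).1
    · intro Δ hΔ i
      change i ∈ Δ ↔ _ = ((1 - η * om i : ℚ) : ℝ)
      rw [hval]
      constructor
      · intro hi
        exact_mod_cast hkkΔ Δ hΔ i hi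
      · intro h
        exact (hkk Δ hΔ i).2 (by exact_mod_cast h)
    · intro Δ hΔ u hu v hv
      have h1 := castdot (dd Δ u) V v
      change (fun j => ((dd Δ u j : ℚ) : ℝ)) ⬝ᵥ rV V v = _
      rw [h1, (hdd Δ hΔ).1 u hu v hv]
      split_ifs <;> simp
    · -- active constraints
      intro k hk
      set S : Finset ι := Finset.univ.filter fun i => k ⬝ᵥ rV V i = ((1 - η * om i : ℚ) : ℝ)
        with hS
      obtain ⟨Δ, hΔ, c, hc0, hc1, hc2⟩ := hcov (fun j => ∑ i ∈ S, (V i j : ℝ))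
        (fun j => Finset.sum_nonneg fun i _ => Nat.cast_nonneg _)
      refine ⟨Δ, hΔ, ?_⟩
      set q : Fin n → ℝ := fun j => ((∑ v ∈ Δ, (1 - η * om v) * dd Δ v j : ℚ) : ℝ) with hq
      have hdot : ∀ r : Fin n → ℝ, ∑ i ∈ S, r ⬝ᵥ rV V i = ∑ v, c v * (r ⬝ᵥ rV V v) := by
        intro r
        have h1 : ∑ i ∈ S, r ⬝ᵥ rV V i = ∑ j, r j * ∑ i ∈ S, (V i j : ℝ) := by
          simp only [dotProduct, rV]
          rw [Finset.sum_comm]
          exact Finset.sum_congr rfl fun j _ => by rw [Finset.mul_sum]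
        rw [h1]
        have h2 : ∀ j, r j * ∑ i ∈ S, (V i j : ℝ) = ∑ v, c v * (r j * (V v j : ℝ)) := by
          intro j
          have := hc2 j
          rw [this, Finset.mul_sum]
          exact Finset.sum_congr rfl fun v _ => by ring
        rw [Finset.sum_congr rfl fun j _ => h2 j, Finset.sum_comm]
        refine Finset.sum_congr rfl fun v _ => ?_
        simp only [dotProduct, rV]
        rw [Finset.mul_sum]
      have h1 := hdot k
      have h2 := hdot q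
      have h3 : ∑ v, c v * (q ⬝ᵥ rV V v) ≤ ∑ v, c v * (k ⬝ᵥ rV V v) := by
        refine Finset.sum_le_sum fun v _ => ?_
        by_cases hv : v ∈ Δ
        · refine mul_le_mul_of_nonneg_left ?_ (hc0 v)
          have h4 : q ⬝ᵥ rV V v = ((1 - η * om v : ℚ) : ℝ) := by
            rw [hq, hval, hkkΔ Δ hΔ v hv]
          rw [h4]
          exact hk v
        · rw [hc1 v hv, zero_mul, zero_mul]
      have h5 : ∑ i ∈ S, (q ⬝ᵥ rV V i - k ⬝ᵥ rV V i) ≤ 0 := by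
        rw [Finset.sum_sub_distrib, h1, h2]
        linarith
      have h6 : ∀ i ∈ S, 0 ≤ q ⬝ᵥ rV V i - k ⬝ᵥ rV V i := by
        intro i hi
        rw [hS, Finset.mem_filter] at hi
        rw [hi.2, hq, hval, sub_nonneg]
        exact_mod_cast (hkk Δ hΔ i).1
      have h7 := (Finset.sum_eq_zero_iff_of_nonneg h6).1
        (le_antisymm h5 (Finset.sum_nonneg h6))
      intro i hi
      have hiS : i ∈ S := by
        rw [hS, Finset.mem_filter]
        exact ⟨Finset.mem_univ _, hi⟩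
      have h8 := h7 i hiS
      rw [sub_eq_zero] at h8
      have h9 : q ⬝ᵥ rV V i = ((1 - η * om i : ℚ) : ℝ) := h8.trans hi
      rw [hq, hval] at h9
      exact (hkk Δ hΔ i).2 (by exact_mod_cast h9)
    · intro i j
      exact Nat.cast_nonneg _
    · intro i
      change (0 : ℝ) < ((1 - η * om i : ℚ) : ℝ)
      have h1 : (0 : ℚ) < 1 - η * om i := by
        have h2 := hMi i
        nlinarith
      exact_mod_cast h1
  · intro Δ hΔ i
    rw [castdot]
    have h1 := h0 Δ hΔ i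
    have h2 : dt (fun j => ∑ v ∈ Δ, dd Δ v j) (qv V i) = ∑ v ∈ Δ, dt (dd Δ v) (qv V i) := by
      have := dt_sum Δ (fun _ => 1) (dd Δ) (qv V i)
      simpa using this
    rw [h2]
    exact_mod_cast h1

end Pool.Agent.helper20.DL
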